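import Pool.Agent.Q229.CP.Fin

/-!
# COL-2PM is NP-complete
-/

set_option autoImplicit false

namespace Pool.Agent.Results.MP_439cda_lc.ColTwoPmNPComplete

open Pool.Agent.NPC Q229.CP

/-- **COL-2PM is NP-complete**: it is in `NP`, and every problem in `NP` is polynomial-time
many-one reducible to it. -/
theorem result : InNPP COL2PM ∧ NPHardP COL2PM := ⟨inNP, hard⟩

end Pool.Agent.Results.MP_439cda_lc.ColTwoPmNPComplete
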